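import Pool.Agent.Helper14_DK.Stmts
import Pool.Agent.Helper55_Fine.L2

/-! MOL: mollifiers on `C^n` (adapted from the plane version of helper55). -/

set_option autoImplicit false

namespace Pool.Agent.DK.H35

open MeasureTheory Filter Topology Pool.Agent.H16F.H55
open scoped ENNReal NNReal ContDiff

variable {n : ℕ}

/-- the bump functions -/
noncomputable def bp (n m : ℕ) : ContDiffBump (0 : E n) where
  rIn := 1 / (2 * ((m : ℝ) + 1))
  rOut := 1 / ((m : ℝ) + 1)
  rIn_pos := by positivity
  rIn_lt_rOut := by
    apply one_div_lt_one_div_of_lt (by positivity)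
    have : (0 : ℝ) ≤ m := m.cast_nonneg
    linarith

theorem bp_rOut (m : ℕ) : (bp n m).rOut = 1 / ((m : ℝ) + 1) := rfl

theorem bp_rOut_tendsto : Tendsto (fun m => (bp n m).rOut) atTop (𝓝 0) :=
  tendsto_one_div_add_atTop_nhds_zero_nat

/-- the density of the mollifier -/
noncomputable abbrev om (n m : ℕ) : E n → ℝ := (bp n m).normed volume

/-- mollification -/
noncomputable def ml (m : ℕ) (f : E n → ℂ) (x : E n) : ℂ := ∫ t, om n m t • f (x - t)

theorem om_cont (m : ℕ) : Continuous (om n m) := (bp n m).continuous_normed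

theorem om_nonneg (m : ℕ) (t : E n) : 0 ≤ om n m t := (bp n m).nonneg_normed t

theorem om_memLp (m : ℕ) (p : ℝ≥0∞) : MemLp (om n m) p volume :=
  (om_cont m).memLp_of_hasCompactSupport (bp n m).hasCompactSupport_normed

theorem lintegral_om (m : ℕ) : ∫⁻ t, ‖om n m t‖ₑ = 1 := by
  have h := ofReal_integral_norm_eq_lintegral_enorm (bp n m).integrable_normed (μ := volume)
  rw [← h]
  have : ∫ t, ‖om n m t‖ = 1 := by
    rw [← (bp n m).integral_normed (μ := (volume : Measure (E n)))]
    refine integral_congr_ae (Eventually.of_forall fun t => ?_)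
    exact Real.norm_of_nonneg (om_nonneg m t)
  rw [show (∫ t, ‖(bp n m).normed volume t‖) = 1 from this, ENNReal.ofReal_one]

theorem qsl (x : E n) : Measure.QuasiMeasurePreserving (fun t : E n => x - t) volume volume :=
  (Measure.measurePreserving_sub_left volume x).quasiMeasurePreserving

theorem ml_congr {f f' : E n → ℂ} (h : f =ᵐ[volume] f') (m : ℕ) (x : E n) :
    ml m f x = ml m f' x := by
  refine integral_congr_ae ?_
  filter_upwards [(qsl x).ae h] with t ht
  rw [ht]

theorem eLpNorm_sub_right (f : E n → ℂ) (hf : AEStronglyMeasurable f volume) (t : E n) :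
    eLpNorm (fun x => f (x - t)) 2 volume = eLpNorm f 2 volume :=
  eLpNorm_comp_measurePreserving hf (measurePreserving_sub_right volume t)

theorem memLp_sub_left {f : E n → ℂ} (hf : MemLp f 2 volume) (x : E n) :
    MemLp (fun t => f (x - t)) 2 volume :=
  hf.comp_measurePreserving (Measure.measurePreserving_sub_left volume x)

theorem ml_integrable {f : E n → ℂ} (hf : MemLp f 2 volume) (m : ℕ) (x : E n) :
    Integrable (fun t => om n m t • f (x - t)) := by
  rw [← memLp_one_iff_integrable]
  exact (memLp_sub_left hf x).smul (om_memLp m 2)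

theorem sm_ml {f : E n → ℂ} (hf : StronglyMeasurable f) (m : ℕ) :
    StronglyMeasurable (Function.uncurry fun t x => om n m t • f (x - t)) := by
  have h1 : StronglyMeasurable fun p : E n × E n => om n m p.1 :=
    ((om_cont m).comp continuous_fst).stronglyMeasurable
  have h2 : StronglyMeasurable fun p : E n × E n => f (p.2 - p.1) :=
    hf.comp_measurable (measurable_snd.sub measurable_fst)
  exact h1.smul h2

theorem lint_ml {f : E n → ℂ} (hf : AEStronglyMeasurable f volume) (m : ℕ) :
    ∫⁻ t, eLpNorm (fun x => om n m t • f (x - t)) 2 volume = eLpNorm f 2 volume := by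
  have : ∀ t, eLpNorm (fun x => om n m t • f (x - t)) 2 volume =
      ‖om n m t‖ₑ * eLpNorm f 2 volume := by
    intro t
    rw [← eLpNorm_sub_right f hf t]
    have h2 := eLpNorm_const_smul (om n m t) (fun x : E n => f (x - t)) 2
      (volume : Measure (E n))
    exact h2
  simp only [this]
  rw [lintegral_mul_const _ (om_cont m).measurable.enorm, lintegral_om, one_mul]

theorem ml_memLp {f : E n → ℂ} (hf : MemLp f 2 volume) (m : ℕ) :
    MemLp (ml m f) 2 volume ∧ eLpNorm (ml m f) 2 volume ≤ eLpNorm f 2 volume := by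
  obtain ⟨f', hf', he⟩ := hf.1
  have hf2 : MemLp f' 2 volume := hf.ae_eq he
  have e : ml m f = ml m f' := funext fun x => ml_congr he m x
  have h1 := lint_ml hf2.1 m
  have h2 := memLp_superposition (μ := (volume : Measure (E n)))
    (ν := (volume : Measure (E n))) (sm_ml hf' m) (by rw [h1]; exact hf2.2)
  rw [h1] at h2
  rw [e, eLpNorm_congr_ae he]
  exact h2

theorem ml_sub {f g : E n → ℂ} (hf : MemLp f 2 volume) (hg : MemLp g 2 volume) (m : ℕ) :
    ml m (f - g) = ml m f - ml m g := by
  funext x
  show ∫ t, om n m t • (f - g) (x - t) = (∫ t, om n m t • f (x - t)) - ∫ t, om n m t • g (x - t)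
  rw [← integral_sub (ml_integrable hf m x) (ml_integrable hg m x)]
  refine integral_congr_ae (Eventually.of_forall fun t => ?_)
  simp only [Pi.sub_apply, smul_sub]

theorem om_zero (m : ℕ) (t : E n) (h : 1 / ((m : ℝ) + 1) ≤ ‖t‖) : om n m t = 0 := by
  by_contra hs
  have h2 : t ∈ Function.support (om n m) := hs
  rw [ContDiffBump.support_normed_eq, Metric.mem_ball, dist_zero_right] at h2
  exact absurd h2 (not_lt.mpr h)

theorem ml_zero_of_dist {f : E n → ℂ} (m : ℕ) {x : E n}
    (hx : ∀ y, dist y x < 1 / ((m : ℝ) + 1) → f y = 0) : ml m f x = 0 := by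
  apply integral_eq_zero_of_ae
  refine Eventually.of_forall fun t => ?_
  by_cases hs : 1 / ((m : ℝ) + 1) ≤ ‖t‖
  · show om n m t • f (x - t) = 0
    rw [om_zero m t hs, zero_smul]
  · push Not at hs
    show om n m t • f (x - t) = 0
    rw [hx (x - t), smul_zero]
    rw [dist_eq_norm]
    have e : x - t - x = -t := by abel
    rw [e, norm_neg]
    exact hs

theorem ml_bound {f : E n → ℂ} {C : ℝ} (hC : ∀ x, ‖f x‖ ≤ C) (m : ℕ) (x : E n) :
    ‖ml m f x‖ ≤ C := by
  have h1 : ∀ t, ‖om n m t • f (x - t)‖ ≤ C * om n m t := by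
    intro t
    rw [norm_smul, Real.norm_of_nonneg (om_nonneg m t), mul_comm]
    exact mul_le_mul_of_nonneg_right (hC _) (om_nonneg m t)
  calc ‖ml m f x‖ ≤ ∫ t, C * om n m t :=
        norm_integral_le_of_norm_le ((bp n m).integrable_normed.const_mul _)
          (Eventually.of_forall h1)
    _ = C := by
        rw [integral_const_mul, (bp n m).integral_normed, mul_one]

theorem ml_pointwise {f : E n → ℂ} (hf : Continuous f) (x : E n) :
    Tendsto (fun m => ml m f x) atTop (𝓝 (f x)) := by
  have h := ContDiffBump.convolution_tendsto_right_of_continuous (μ := (volume : Measure (E n)))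
    (bp_rOut_tendsto (n := n)) hf x
  refine h.congr fun m => ?_
  simp only [convolution_def, ContinuousLinearMap.lsmul_apply]
  rfl

theorem conv_dom {F : ℕ → E n → ℂ}
    {K : Set (E n)} (hK : IsCompact K) {M : ℝ}
    (hm : ∀ m, AEStronglyMeasurable (F m) volume) (hb : ∀ m x, ‖F m x‖ ≤ M)
    (h0 : ∀ m x, x ∉ K → F m x = 0) (hp : ∀ x, Tendsto (fun m => F m x) atTop (𝓝 0)) :
    Tendsto (fun m => eLpNorm (F m) 2 volume) atTop (𝓝 0) := by
  have hbi : Integrable (K.indicator fun _ : E n => M ^ 2) := by
    rw [integrable_indicator_iff hK.measurableSet]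
    exact integrableOn_const hK.measure_lt_top.ne
  have hbd : ∀ m x, ‖(‖F m x‖ ^ 2)‖ ≤ K.indicator (fun _ => M ^ 2) x := by
    intro m x
    by_cases hx : x ∈ K
    · rw [Set.indicator_of_mem hx, Real.norm_of_nonneg (by positivity)]
      exact pow_le_pow_left₀ (norm_nonneg _) (hb m x) 2
    · rw [h0 m x hx]
      simp [hx]
  have h1 : Tendsto (fun m => ∫ x, ‖F m x‖ ^ 2) atTop (𝓝 (∫ _ : E n, (0 : ℝ))) := by
    apply tendsto_integral_of_dominated_convergence (K.indicator fun _ => M ^ 2)
    · exact fun m => (hm m).norm.pow 2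
    · exact hbi
    · exact fun m => Eventually.of_forall (hbd m)
    · refine Eventually.of_forall fun x => ?_
      have := ((hp x).norm).pow 2
      simpa using this
  rw [integral_zero] at h1
  have h2 := ENNReal.tendsto_ofReal h1
  rw [ENNReal.ofReal_zero] at h2
  have h3 := (ENNReal.continuous_rpow_const (y := 1 / 2)).tendsto 0 |>.comp h2
  rw [ENNReal.zero_rpow_of_pos (by norm_num)] at h3
  refine h3.congr fun m => ?_
  rw [eLpNorm_two]
  show ENNReal.ofReal (∫ x, ‖F m x‖ ^ 2) ^ (1 / 2 : ℝ) = _
  congr 1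
  rw [ofReal_integral_eq_lintegral_ofReal]
  · refine lintegral_congr fun x => ?_
    rw [← ofReal_norm, ENNReal.ofReal_pow (norm_nonneg _)]
  · exact hbi.mono' ((hm m).norm.pow 2) (Eventually.of_forall (hbd m))
  · exact Eventually.of_forall fun x => by positivity

theorem ml_tendsto {f : E n → ℂ} (hf : MemLp f 2 volume) :
    Tendsto (fun m => eLpNorm (ml m f - f) 2 volume) atTop (𝓝 0) := by
  apply strong_conv (fun m f => ml m f) 1 _ _ _ _ hf
  · exact fun m f hf => (ml_memLp hf m).1
  · refine Eventually.of_forall fun m f hf => ?_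
    rw [ENNReal.coe_one, one_mul]
    exact (ml_memLp hf m).2
  · intro m f g hf hg
    rw [ml_sub hf hg]
  · intro f hcont hc
    obtain ⟨M, hM⟩ := hcont.bounded_above_of_compact_support hc
    have hmem : MemLp f 2 volume := hcont.memLp_of_hasCompactSupport hc
    apply conv_dom (K := Metric.cthickening 1 (tsupport f)) hc.isCompact.cthickening (M := M + M)
    · exact fun m => ((ml_memLp hmem m).1.sub hmem).1
    · intro m x
      exact (norm_sub_le _ _).trans (add_le_add (ml_bound hM m x) (hM x))
    · intro m x hx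
      have h1 : f x = 0 := by
        by_contra h
        exact hx (Metric.self_subset_cthickening _ (subset_tsupport f h))
      have h2 : ml m f x = 0 := by
        apply ml_zero_of_dist
        intro y hy
        by_contra h
        apply hx
        apply Metric.thickening_subset_cthickening
        rw [Metric.mem_thickening_iff]
        refine ⟨y, subset_tsupport f h, ?_⟩
        rw [dist_comm]
        refine hy.trans_le ?_
        rw [div_le_one (by positivity)]
        have : (0 : ℝ) ≤ m := m.cast_nonneg
        linarith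
      simp only [Pi.sub_apply, h1, h2, sub_zero]
    · intro x
      have h := (ml_pointwise hcont x).sub_const (f x)
      rwa [sub_self] at h

theorem conv_eq (f : E n → ℂ) (m : ℕ) : conv f (cx (om n m)) = ml m f := by
  funext z
  unfold conv ml cx
  rw [← integral_sub_left_eq_self (fun w => f w * ((om n m (z - w) : ℝ) : ℂ)) volume z]
  refine integral_congr_ae (Eventually.of_forall fun t => ?_)
  show f (z - t) * ((om n m (z - (z - t)) : ℝ) : ℂ) = om n m t • f (z - t)
  rw [sub_sub_cancel, Complex.real_smul, mul_comm]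

theorem sq_integral {h : E n → ℂ} (hh : MemLp h 2 volume) :
    ∫ z, ‖h z‖ ^ 2 = (eLpNorm h 2 volume).toReal ^ 2 := by
  have h1 : ENNReal.ofReal (∫ z, ‖h z‖ ^ 2) = ∫⁻ z, ‖h z‖ₑ ^ 2 := by
    rw [ofReal_integral_eq_lintegral_ofReal]
    · refine lintegral_congr fun x => ?_
      rw [← ofReal_norm, ENNReal.ofReal_pow (norm_nonneg _)]
    · exact hh.integrable_norm_pow (by norm_num)
    · exact Eventually.of_forall fun x => by positivity
  have h2 : (eLpNorm h 2 volume) ^ 2 = ∫⁻ z, ‖h z‖ₑ ^ 2 := by
    rw [eLpNorm_two, ← ENNReal.rpow_natCast, ← ENNReal.rpow_mul]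
    norm_num
  rw [← ENNReal.toReal_pow, h2, ← h1, ENNReal.toReal_ofReal]
  exact integral_nonneg fun x => by positivity

theorem mol : MolStmt := by
  intro n
  refine ⟨fun m => om n m, fun m => (bp n m).contDiff_normed, fun m y => om_nonneg m y,
    fun m => (bp n m).integral_normed, fun m y h => om_zero m y h, fun f hf => ⟨fun m => ?_, ?_⟩⟩
  · rw [conv_eq]
    exact (ml_memLp hf m).1
  · have h1 := ml_tendsto hf
    have h2 : ∀ m, ∫ z, ‖conv f (cx (om n m)) z - f z‖ ^ 2 =
        (eLpNorm (ml m f - f) 2 volume).toReal ^ 2 := by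
      intro m
      rw [← sq_integral ((ml_memLp hf m).1.sub hf), conv_eq]
      rfl
    simp only [h2]
    have h3 := (ENNReal.tendsto_toReal ENNReal.zero_ne_top).comp h1
    have h4 := h3.pow 2
    simpa using h4

end Pool.Agent.DK.H35
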