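import Pool.Agent.Helper14_DK.Stmts

/-! KER: the kernels. -/

set_option autoImplicit false

namespace Pool.Agent.DK.H35

open MeasureTheory Filter Topology Complex
open scoped ContDiff

/-- the step -/
noncomputable def st (x : ℝ) : ℝ := Real.smoothTransition (2 * x - 1)

theorem st_contDiff : ContDiff ℝ ∞ st :=
  Real.smoothTransition.contDiff.comp (by fun_prop)

theorem st_zero {x : ℝ} (h : x ≤ 1 / 2) : st x = 0 :=
  Real.smoothTransition.zero_of_nonpos (by linarith)

theorem st_one {x : ℝ} (h : 1 ≤ x) : st x = 1 :=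
  Real.smoothTransition.one_of_one_le (by linarith)

theorem st_mono : Monotone st := fun _ _ h => Real.smoothTransition.monotone (by linarith)

theorem st_diff : Differentiable ℝ st := st_contDiff.differentiable (by simp)

/-- the profile -/
noncomputable def Qf (n : ℕ) (x : ℝ) : ℝ := st x * (x ^ n)⁻¹

theorem Qf_near_zero (n : ℕ) {x : ℝ} (h : x < 1 / 2) : Qf n =ᶠ[𝓝 x] fun _ => 0 := by
  filter_upwards [Iio_mem_nhds h] with y hy
  rw [Qf, st_zero (le_of_lt hy), zero_mul]

theorem Qf_contDiff (n : ℕ) : ContDiff ℝ ∞ (Qf n) := by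
  rw [contDiff_iff_contDiffAt]
  intro x
  by_cases h : x < 1 / 2
  · exact contDiffAt_const.congr_of_eventuallyEq (Qf_near_zero n h)
  · have h0 : x ≠ 0 := by linarith [not_lt.mp h]
    exact st_contDiff.contDiffAt.mul ((contDiffAt_id.pow n).inv (pow_ne_zero n h0))

theorem Qf_diff (n : ℕ) : Differentiable ℝ (Qf n) := (Qf_contDiff n).differentiable (by simp)

/-- the radial density -/
noncomputable def psf (n : ℕ) (x : ℝ) : ℝ := n * Qf n x + x * deriv (Qf n) x

theorem psf_contDiff (n : ℕ) : ContDiff ℝ ∞ (psf n) := by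
  have h1 : ContDiff ℝ ∞ (deriv (Qf n)) := (contDiff_infty_iff_deriv.mp (Qf_contDiff n)).2
  exact (contDiff_const.mul (Qf_contDiff n)).add (contDiff_id.mul h1)

theorem psf_eq (n : ℕ) {x : ℝ} (h : 0 < x) : psf n x = deriv st x * x * (x ^ n)⁻¹ := by
  have h1 : HasDerivAt (Qf n) (deriv st x * (x ^ n)⁻¹ +
      st x * (-((n : ℝ) * x ^ (n - 1)) / (x ^ n) ^ 2)) x :=
    (st_diff x).hasDerivAt.mul ((hasDerivAt_pow n x).inv (pow_ne_zero n h.ne'))
  unfold psf
  rw [h1.deriv, Qf]
  rcases Nat.eq_zero_or_pos n with rfl | hn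
  · simp
    ring
  · obtain ⟨k, rfl⟩ : ∃ k, n = k + 1 := ⟨n - 1, by omega⟩
    simp only [Nat.add_sub_cancel]
    field_simp
    ring

theorem psf_nonneg (n : ℕ) {x : ℝ} (h : 0 ≤ x) : 0 ≤ psf n x := by
  rcases h.eq_or_lt with rfl | h
  · have : Qf n 0 = 0 := by rw [Qf, st_zero (by norm_num), zero_mul]
    unfold psf
    rw [this]
    simp
  · rw [psf_eq n h]
    have h1 : 0 ≤ deriv st x := st_mono.deriv_nonneg
    positivity

theorem psf_zero (n : ℕ) {x : ℝ} (h : 1 ≤ x) : psf n x = 0 := by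
  rw [psf_eq n (by linarith)]
  have h1 : deriv st x = 0 := by
    apply IsLocalMax.deriv_eq_zero
    refine Eventually.of_forall fun y => ?_
    rw [st_one h]
    exact Real.smoothTransition.le_one _
  rw [h1]
  ring

theorem psf_pos (n : ℕ) : ∃ x : ℝ, 0 < x ∧ 0 < psf n x := by
  obtain ⟨x, hx, hd⟩ := exists_deriv_eq_slope st (show (1 / 2 : ℝ) < 1 by norm_num)
    st_diff.continuous.continuousOn st_diff.differentiableOn
  rw [st_one le_rfl, st_zero le_rfl] at hd
  have h0 : 0 < x := by linarith [hx.1]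
  refine ⟨x, h0, ?_⟩
  rw [psf_eq n h0, hd]
  have : (0 : ℝ) < (1 - 0) / (1 - 1 / 2) := by norm_num
  positivity

section

variable {n : ℕ}

theorem nsq_contDiff : ContDiff ℝ ∞ (nsq (n := n)) := by
  unfold nsq
  refine ContDiff.sum fun j _ => ?_
  exact (contDiff_norm_sq ℝ).comp (contDiff_apply ℝ ℂ j)

theorem nsq_nonneg (y : E n) : 0 ≤ nsq y := Finset.sum_nonneg fun j _ => by positivity

theorem nsq_diff : Differentiable ℝ (nsq (n := n)) := nsq_contDiff.differentiable (by simp)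

theorem fderiv_nsq (y v : E n) :
    fderiv ℝ nsq y v = ∑ j, 2 * ((y j).re * (v j).re + (y j).im * (v j).im) := by
  have hp : ∀ j : Fin n, HasFDerivAt (fun z : E n => z j)
      (ContinuousLinearMap.proj (R := ℝ) (φ := fun _ : Fin n => ℂ) j) y :=
    fun j => (ContinuousLinearMap.proj (R := ℝ) (φ := fun _ : Fin n => ℂ) j).hasFDerivAt
  have h1 := fun j : Fin n => (hp j).norm_sq
  have h2 : HasFDerivAt (nsq (n := n)) _ y := HasFDerivAt.fun_sum fun j _ => h1 j
  rw [h2.fderiv, sum_apply]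
  refine Finset.sum_congr rfl fun j _ => ?_
  have e1 : inner ℝ (y j) (v j) = (y j).re * (v j).re + (y j).im * (v j).im := by
    rw [Complex.inner]
    simp
    ring
  rw [← e1]
  simp only [ContinuousLinearMap.comp_apply, smul_apply,
    ContinuousLinearMap.proj_apply, innerSL_apply_apply, nsmul_eq_mul, Nat.cast_ofNat]

theorem one_le_nsq (y : E n) (h : 1 ≤ ‖y‖) : 1 ≤ nsq y := by
  by_contra hcon
  push Not at hcon
  have h1 : ‖y‖ < 1 := by
    rw [pi_norm_lt_iff one_pos]
    intro j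
    have h2 : ‖y j‖ ^ 2 ≤ nsq y :=
      Finset.single_le_sum (f := fun j => ‖y j‖ ^ 2) (fun i _ => by positivity) (Finset.mem_univ j)
    have h3 : ‖y j‖ ^ 2 < 1 := lt_of_le_of_lt h2 hcon
    nlinarith [norm_nonneg (y j)]
  linarith

/-- the antiholomorphic derivative of a radial multiple of a conjugate coordinate -/
theorem dbar_rad (i : Fin n) (q : ℝ → ℝ) (q' : ℝ) (y : E n) (h : HasDerivAt q q' (nsq y)) :
    dbar i (fun z => (starRingEnd ℂ) (z i) * ((q (nsq z) : ℝ) : ℂ)) y =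
      ((q (nsq y) + q' * ‖y i‖ ^ 2 : ℝ) : ℂ) := by
  have hg : HasFDerivAt (fun z : E n => q (nsq z)) (q' • fderiv ℝ nsq y) y :=
    h.comp_hasFDerivAt y (nsq_diff y).hasFDerivAt
  have hg2 : HasFDerivAt (fun z : E n => ((q (nsq z) : ℝ) : ℂ))
      (Complex.ofRealCLM.comp (q' • fderiv ℝ nsq y)) y :=
    Complex.ofRealCLM.hasFDerivAt.comp y hg
  have hc : HasFDerivAt (fun z : E n => (starRingEnd ℂ) (z i))
      ((Complex.conjCLE : ℂ →L[ℝ] ℂ).comp
        (ContinuousLinearMap.proj (R := ℝ) (φ := fun _ : Fin n => ℂ) i)) y :=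
    (Complex.conjCLE : ℂ →L[ℝ] ℂ).hasFDerivAt.comp y
      (ContinuousLinearMap.proj (R := ℝ) (φ := fun _ : Fin n => ℂ) i).hasFDerivAt
  have hm := hc.mul hg2
  have e : fderiv ℝ (fun z : E n => (starRingEnd ℂ) (z i) * ((q (nsq z) : ℝ) : ℂ)) y = _ :=
    hm.fderiv
  have s1 : fderiv ℝ nsq y (Pi.single i 1) = 2 * (y i).re := by
    rw [fderiv_nsq, Finset.sum_eq_single i]
    · simp
    · intro j _ hj
      simp [Pi.single_eq_of_ne hj]
    · intro hi
      exact absurd (Finset.mem_univ i) hi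
  have s2 : fderiv ℝ nsq y (Pi.single i I) = 2 * (y i).im := by
    rw [fderiv_nsq, Finset.sum_eq_single i]
    · simp
    · intro j _ hj
      simp [Pi.single_eq_of_ne hj]
    · intro hi
      exact absurd (Finset.mem_univ i) hi
  unfold dbar
  rw [e]
  simp only [add_apply, smul_apply,
    ContinuousLinearMap.comp_apply, ContinuousLinearMap.proj_apply, Pi.single_eq_same, s1, s2,
    Complex.ofRealCLM_apply, smul_eq_mul]
  have c1 : (Complex.conjCLE : ℂ →L[ℝ] ℂ) 1 = 1 := by simp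
  have c2 : (Complex.conjCLE : ℂ →L[ℝ] ℂ) I = -I := by simp
  rw [c1, c2]
  have hn : ‖y i‖ ^ 2 = (y i).re ^ 2 + (y i).im ^ 2 := by
    rw [← Complex.normSq_eq_norm_sq, Complex.normSq_apply]; ring
  rw [hn]
  apply Complex.ext
  · simp
    rw [← Complex.ofReal_pow, ← Complex.ofReal_pow, Complex.ofReal_re, Complex.ofReal_re]
    ring
  · simp
    rw [← Complex.ofReal_pow, ← Complex.ofReal_pow, Complex.ofReal_im, Complex.ofReal_im]
    ring

end

theorem ker : KerStmt := by
  intro n hn θ hθ hθ1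
  have hn0 : n ≠ 0 := by omega
  set J : ℝ := ∫ y : E n, psf n (nsq y) with hJ
  have hcont : Continuous fun y : E n => psf n (nsq y) :=
    (psf_contDiff n).continuous.comp nsq_contDiff.continuous
  have hcs : HasCompactSupport fun y : E n => psf n (nsq y) := by
    refine HasCompactSupport.of_support_subset_isCompact
      (isCompact_closedBall (0 : E n) 1) fun y hy => ?_
    rw [Metric.mem_closedBall, dist_zero_right]
    by_contra hcon
    exact hy (psf_zero n (one_le_nsq y (le_of_lt (not_le.mp hcon))))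
  have hJ0 : 0 < J := by
    obtain ⟨x, hx, hp⟩ := psf_pos n
    have hne : psf n (nsq (Pi.single (⟨0, by omega⟩ : Fin n) ((Real.sqrt x : ℝ) : ℂ) : E n)) ≠ 0 := by
      have : nsq (Pi.single (⟨0, by omega⟩ : Fin n) ((Real.sqrt x : ℝ) : ℂ) : E n) = x := by
        unfold nsq
        rw [Finset.sum_eq_single (⟨0, by omega⟩ : Fin n)]
        · rw [Pi.single_eq_same, Complex.norm_real, Real.norm_of_nonneg (Real.sqrt_nonneg x),
            Real.sq_sqrt hx.le]
        · intro j _ hj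
          rw [Pi.single_eq_of_ne hj]
          simp
        · intro hi
          exact absurd (Finset.mem_univ _) hi
      rw [this]
      exact hp.ne'
    exact hcont.integral_pos_of_hasCompactSupport_nonneg_nonzero hcs
      (fun y => psf_nonneg n (nsq_nonneg y)) hne
  set τ : ℝ := θ⁻¹ with hτ
  have hτ1 : 1 < τ := (one_lt_inv₀ hθ).mpr hθ1
  set q : ℝ → ℝ := fun x => J⁻¹ * (τ ^ (2 * n) * Qf n (τ ^ 2 * x) - Qf n x) with hq
  have hqd : ∀ x, HasDerivAt q (J⁻¹ * (τ ^ (2 * n) * (deriv (Qf n) (τ ^ 2 * x) * τ ^ 2) -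
      deriv (Qf n) x)) x := by
    intro x
    have h1 : HasDerivAt (fun x : ℝ => τ ^ 2 * x) (τ ^ 2) x := by
      simpa using (hasDerivAt_id x).const_mul (τ ^ 2)
    have h2 := (Qf_diff n (τ ^ 2 * x)).hasDerivAt.comp x h1
    exact ((h2.const_mul (τ ^ (2 * n))).sub (Qf_diff n x).hasDerivAt).const_mul J⁻¹
  have hqs : ContDiff ℝ ∞ q := by
    refine contDiff_const.mul ((contDiff_const.mul ?_).sub (Qf_contDiff n))
    exact (Qf_contDiff n).comp (contDiff_const.mul contDiff_id)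
  have hq1 : ∀ x, 1 ≤ x → q x = 0 := by
    intro x hx
    have h1 : 1 ≤ τ ^ 2 * x := by nlinarith
    simp only [hq, Qf]
    rw [st_one hx, st_one h1, mul_pow, ← pow_mul]
    have : τ ^ (2 * n) ≠ 0 := by positivity
    have : x ^ n ≠ 0 := by positivity
    field_simp
    ring
  refine ⟨fun y => J⁻¹ * psf n (nsq y), fun i y => (starRingEnd ℂ) (y i) * ((q (nsq y) : ℝ) : ℂ),
    ?_, ?_, ?_, ?_, ?_, ?_, ?_⟩
  · exact contDiff_const.mul ((psf_contDiff n).comp nsq_contDiff)
  · intro y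
    exact mul_nonneg (inv_nonneg.mpr hJ0.le) (psf_nonneg n (nsq_nonneg y))
  · rw [integral_const_mul, ← hJ, inv_mul_cancel₀ hJ0.ne']
  · intro y hy
    show J⁻¹ * psf n (nsq y) = 0
    rw [psf_zero n (one_le_nsq y hy), mul_zero]
  · intro i
    refine ContDiff.mul ?_ ?_
    · exact (Complex.conjCLE : ℂ →L[ℝ] ℂ).contDiff.comp (contDiff_apply ℝ ℂ i)
    · exact Complex.ofRealCLM.contDiff.comp (hqs.comp nsq_contDiff)
  · intro i y hy
    show (starRingEnd ℂ) (y i) * ((q (nsq y) : ℝ) : ℂ) = 0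
    rw [hq1 _ (one_le_nsq y hy)]
    simp
  · intro y
    have h1 : ∀ i : Fin n, dbar i (fun y : E n => (starRingEnd ℂ) (y i) * ((q (nsq y) : ℝ) : ℂ)) y =
        ((q (nsq y) + (J⁻¹ * (τ ^ (2 * n) * (deriv (Qf n) (τ ^ 2 * nsq y) * τ ^ 2) -
          deriv (Qf n) (nsq y))) * ‖y i‖ ^ 2 : ℝ) : ℂ) :=
      fun i => dbar_rad i q _ y (hqd _)
    simp only [h1]
    have h4 : ∀ A B : ℝ, ∑ i : Fin n, (A + B * ‖y i‖ ^ 2) = n * A + B * nsq y := by
      intro A B
      rw [Finset.sum_add_distrib, ← Finset.mul_sum]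
      simp [nsq]
    rw [← Complex.ofReal_sum, h4]
    congr 1
    have h2 : nsq (τ • y) = τ ^ 2 * nsq y := by
      unfold nsq
      rw [Finset.mul_sum]
      refine Finset.sum_congr rfl fun j _ => ?_
      rw [Pi.smul_apply, norm_smul, Real.norm_eq_abs, mul_pow, sq_abs]
    rw [h2]
    simp only [hq]
    unfold psf
    ring

end Pool.Agent.DK.H35
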